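import Mathlib

set_option autoImplicit false

namespace Pool.Agent.Results.MP_8dd54d_co.Exists

open Finset

/-- every nonempty subgraph has a vertex of degree at most `d` -/
def Degenerate {V : Type} (d : ℕ) (G : SimpleGraph V) : Prop :=
  ∀ H : G.Subgraph, H.verts.Nonempty → ∃ v ∈ H.verts, (H.neighborSet v).ncard ≤ d

/-- every partition of the edges into short and long ones has a realisation in `ℝ^k` -/
def Pandichotomous {V : Type} (k : ℕ) (G : SimpleGraph V) : Prop :=
  ∀ Es : Set (Sym2 V), Es ⊆ G.edgeSet →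
    ∃ (p : V → EuclideanSpace ℝ (Fin k)) (δ : ℝ), Function.Injective p ∧ 0 < δ ∧
      ∀ u v, G.Adj u v → (dist (p u) (p v) ≤ δ ↔ s(u, v) ∈ Es)

def sg (x : Bool) : ℝ := if x then -1 else 1

theorem nonsep {k : ℕ} (b : (Fin (k + 1) → Bool) → EuclideanSpace ℝ (Fin k)) :
    ∃ (i : Fin (k + 1)) (t : (Fin (k + 1) → Bool) → ℝ), (∀ s, 0 ≤ t s) ∧ ∑ s, t s = 1 ∧
      ∑ s, (t s * sg (s i)) • b s = 0 ∧ ∑ s, t s * sg (s i) = 0 := by
  classical
  by_contra hcon
  push Not at hcon
  have key : ∀ i : Fin (k + 1), ∃ f : StrongDual ℝ (EuclideanSpace ℝ (Fin k) × ℝ),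
      ∀ s, 0 < sg (s i) * f (b s, 1) := by
    intro i
    let y : (Fin (k + 1) → Bool) → EuclideanSpace ℝ (Fin k) × ℝ :=
      fun s => sg (s i) • (b s, (1 : ℝ))
    have hfin : (Set.range y).Finite := Set.finite_range _
    have h0 : (0 : EuclideanSpace ℝ (Fin k) × ℝ) ∉ convexHull ℝ (Set.range y) := by
      rw [convexHull_range_eq_exists_affineCombination]
      rintro ⟨S, w, hw0, hw1, hw⟩
      rw [affineCombination_eq_linear_combination _ _ _ hw1] at hw
      have e1 : ∑ s, (if s ∈ S then w s else 0) • y s = 0 := by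
        rw [← hw]
        simp [ite_smul, sum_ite_mem]
      refine hcon i (fun s => if s ∈ S then w s else 0) (fun s => ?_) (by simpa using hw1) ?_ ?_
      · split_ifs with h
        · exact hw0 s h
        · exact le_rfl
      · have := congrArg Prod.fst e1
        simpa [Prod.fst_sum, y, mul_smul] using this
      · have := congrArg Prod.snd e1
        simpa [Prod.snd_sum, y] using this
    obtain ⟨f, u, h1, h2⟩ := geometric_hahn_banach_point_closed (convex_convexHull ℝ _)
      (hfin.isCompact_convexHull ℝ).isClosed h0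
    refine ⟨f, fun s => ?_⟩
    have := h2 (y s) (subset_convexHull _ _ ⟨s, rfl⟩)
    rw [map_zero] at h1
    simp only [y, map_smul, smul_eq_mul] at this
    linarith
  choose f hf using key
  let g : Fin (k + 1) → Module.Dual ℝ (EuclideanSpace ℝ (Fin k)) :=
    fun i => (f i).toLinearMap ∘ₗ LinearMap.inl ℝ _ _
  have hdep : ¬ LinearIndependent ℝ g := by
    intro h
    have := h.fintype_card_le_finrank
    simp at this
  obtain ⟨α, hα, j, hj⟩ := Fintype.not_linearIndependent_iff.1 hdep
  have hconst : ∀ s, ∑ i, α i * f i (b s, 1) = ∑ i, α i * f i (0, 1) := by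
    intro s
    have h1 := congrArg (fun φ : Module.Dual ℝ (EuclideanSpace ℝ (Fin k)) => φ (b s)) hα
    simp only [LinearMap.coe_sum, Finset.sum_apply, LinearMap.smul_apply, smul_eq_mul,
      LinearMap.zero_apply, g, LinearMap.comp_apply, LinearMap.inl_apply,
      ContinuousLinearMap.coe_coe] at h1
    have h2 : ∀ i, f i (b s, 1) = f i (b s, 0) + f i (0, 1) := by
      intro i; rw [← map_add]; simp
    simp only [h2, mul_add, sum_add_distrib, h1, zero_add]
  have hp : 0 < ∑ i, α i * f i (b (fun i => decide (α i < 0)), 1) := by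
    refine sum_pos' (fun i _ => ?_) ⟨j, mem_univ _, ?_⟩
    · have := hf i (fun i => decide (α i < 0))
      by_cases h : α i < 0 <;> simp [sg, h] at this <;> nlinarith
    · have := hf j (fun i => decide (α i < 0))
      rcases lt_or_gt_of_ne hj with h | h
      · simp [sg, h] at this; nlinarith
      · simp [sg, not_lt.2 h.le] at this; nlinarith
  have hn : ∑ i, α i * f i (b (fun i => decide (0 < α i)), 1) < 0 := by
    refine sum_neg' (fun i _ => ?_) ⟨j, mem_univ _, ?_⟩
    · have := hf i (fun i => decide (0 < α i))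
      by_cases h : 0 < α i <;> simp [sg, h] at this <;> nlinarith
    · have := hf j (fun i => decide (0 < α i))
      rcases lt_or_gt_of_ne hj with h | h
      · simp [sg, not_lt.2 h.le] at this; nlinarith
      · simp [sg, h] at this; nlinarith
  rw [hconst] at hp hn
  linarith

theorem reduce {k : ℕ} {J : Type} [Fintype J] [DecidableEq J] (u : J → EuclideanSpace ℝ (Fin k))
    (ε : J → ℝ) : ∀ (m : ℕ) (t : J → ℝ) (T : Finset J), T.card = m → (∀ s, s ∉ T → t s = 0) →
      (∀ s, 0 ≤ t s) → ∑ s, t s = 1 → ∑ s, t s • u s = 0 → 0 ≤ ∑ s, t s * ε s →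
      ∃ (t : J → ℝ) (T : Finset J), T.card ≤ k + 1 ∧ (∀ s, s ∉ T → t s = 0) ∧
        (∀ s, 0 ≤ t s) ∧ ∑ s, t s = 1 ∧ ∑ s, t s • u s = 0 ∧ 0 ≤ ∑ s, t s * ε s := by
  intro m
  induction m with
  | zero => intro t T h0 h1 h2 h3 h4 h5; exact ⟨t, T, by omega, h1, h2, h3, h4, h5⟩
  | succ m ih =>
    intro t T h0 h1 h2 h3 h4 h5
    by_cases hc : T.card ≤ k + 1
    · exact ⟨t, T, hc, h1, h2, h3, h4, h5⟩
    have hdep : ¬ LinearIndependent ℝ (fun s : T => ((u s, 1) : EuclideanSpace ℝ (Fin k) × ℝ)) := by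
      intro h
      have := h.fintype_card_le_finrank
      simp at this
      omega
    obtain ⟨g, hg, j, hj⟩ := Fintype.not_linearIndependent_iff.1 hdep
    obtain ⟨r, r1, r2, r3, r4, r5⟩ : ∃ r : J → ℝ, (∀ s, s ∉ T → r s = 0) ∧ ∑ s, r s = 0 ∧
        ∑ s, r s • u s = 0 ∧ r j ≠ 0 ∧ 0 ≤ ∑ s, r s * ε s := by
      let r : J → ℝ := fun s => if h : s ∈ T then g ⟨s, h⟩ else 0
      have e : ∑ s, r s • ((u s, 1) : EuclideanSpace ℝ (Fin k) × ℝ) = 0 := by
        rw [← hg, ← Finset.sum_subset (subset_univ T) (fun s _ hs => by simp [r, hs]),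
          ← Finset.sum_coe_sort T]
        exact sum_congr rfl fun s _ => by simp [r]
      have r1 : ∀ s, s ∉ T → r s = 0 := fun s hs => by simp [r, hs]
      have r2 : ∑ s, r s = 0 := by
        have := congrArg Prod.snd e
        simpa [Prod.snd_sum] using this
      have r3 : ∑ s, r s • u s = 0 := by
        have := congrArg Prod.fst e
        simpa [Prod.fst_sum] using this
      have r4 : r j ≠ 0 := by simpa [r] using hj
      by_cases h : 0 ≤ ∑ s, r s * ε s
      · exact ⟨r, r1, r2, r3, r4, h⟩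
      · refine ⟨fun s => -r s, fun s hs => by simp [r1 s hs], by simp [r2], by simp [r3],
          by simpa using r4, ?_⟩
        simp only [neg_mul, sum_neg_distrib]
        linarith
    have hneg : (univ.filter fun s => r s < 0).Nonempty := by
      by_contra hne
      have hall : ∀ s ∈ (univ : Finset J), 0 ≤ r s := by
        intro s _
        by_contra h
        exact hne ⟨s, by simpa using h⟩
      exact r4 ((sum_eq_zero_iff_of_nonneg hall).1 r2 j (mem_univ _))
    obtain ⟨s0, hs0, hmin⟩ := exists_min_image _ (fun s => t s / (-r s)) hneg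
    have hs0' : r s0 < 0 := (mem_filter.1 hs0).2
    have hT : s0 ∈ T := by
      by_contra h
      exact hs0'.ne (r1 s0 h)
    set θ := t s0 / (-r s0) with hθ
    have hθ0 : 0 ≤ θ := div_nonneg (h2 _) (by linarith)
    refine ih (fun s => t s + θ * r s) (T.erase s0) (by rw [card_erase_of_mem hT]; omega)
      ?_ ?_ ?_ ?_ ?_
    · intro s hs
      by_cases e : s = s0
      · subst e
        have : r s ≠ 0 := hs0'.ne
        rw [hθ]; field_simp; ring
      · have : s ∉ T := fun h => hs (mem_erase.2 ⟨e, h⟩)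
        simp [h1 s this, r1 s this]
    · intro s
      by_cases h : r s < 0
      · have := hmin s (by simpa using h)
        rw [le_div_iff₀ (by linarith)] at this
        linarith
      · have := mul_nonneg hθ0 (not_lt.1 h)
        have := h2 s
        linarith
    · simp [sum_add_distrib, ← mul_sum, r2, h3]
    · simp [add_smul, sum_add_distrib, mul_smul, ← smul_sum, r3, h4]
    · simp only [add_mul, sum_add_distrib, mul_assoc, ← mul_sum]
      have := mul_nonneg hθ0 r5
      linarith

theorem geom {k : ℕ} (a : Fin (k + 1) → EuclideanSpace ℝ (Fin k))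
    (b : (Fin (k + 1) → Bool) → EuclideanSpace ℝ (Fin k))
    (c : {T : Finset (Fin (k + 1) → Bool) // T.card ≤ k + 1} × Fin (k + 1) →
      EuclideanSpace ℝ (Fin k)) (δ : ℝ) (hδ : 0 < δ)
    (h1 : ∀ i s, dist (a i) (b s) ≤ δ ↔ s i = true)
    (h2 : ∀ s z, s ∈ z.1.1 → (dist (b s) (c z) ≤ δ ↔ s z.2 = false)) : False := by
  classical
  obtain ⟨i, t, t0, t1, t2, t3⟩ := nonsep b
  obtain ⟨t, T, hT, r0, r1, r2, r3, r4⟩ := reduce (fun s => sg (s i) • (b s - a i))
    (fun s => sg (s i)) _ t univ rfl (by simp) t0 t1 (by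
      simp only [smul_sub, ← mul_smul, sum_sub_distrib, ← sum_smul, t2, t3]
      simp) t3.ge
  set x := c (⟨T, hT⟩, i) with hx
  have id1 : ∀ s, dist (b s) x ^ 2 = dist (a i) (b s) ^ 2 +
      2 * inner ℝ (b s - a i) (a i - x) + ‖a i - x‖ ^ 2 := by
    intro s
    rw [dist_comm (a i), dist_eq_norm, dist_eq_norm, ← norm_add_sq_real]
    congr 2
    abel
  have id2 : ∑ s, t s * sg (s i) * (dist (b s) x ^ 2 - δ ^ 2) =
      ∑ s, t s * sg (s i) * (dist (a i) (b s) ^ 2 - δ ^ 2) +
        (∑ s, t s * sg (s i)) * ‖a i - x‖ ^ 2 := by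
    have e : ∑ s, t s * sg (s i) * inner ℝ (b s - a i) (a i - x) = 0 := by
      have := congrArg (fun v => inner ℝ v (a i - x)) r3
      simp only [sum_inner, inner_smul_left, inner_zero_left, RCLike.conj_to_real] at this
      simpa [mul_assoc] using this
    calc _ = ∑ s, (t s * sg (s i) * (dist (a i) (b s) ^ 2 - δ ^ 2) +
          t s * sg (s i) * ‖a i - x‖ ^ 2 +
          2 * (t s * sg (s i) * inner ℝ (b s - a i) (a i - x))) :=
          sum_congr rfl fun s _ => by rw [id1]; ring
      _ = _ := by rw [sum_add_distrib, sum_add_distrib, ← mul_sum, e, ← sum_mul]; ring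
  have term : ∀ s, t s ≠ 0 → sg (s i) * (dist (b s) x ^ 2 - δ ^ 2) <
      sg (s i) * (dist (a i) (b s) ^ 2 - δ ^ 2) := by
    intro s hs
    have hsT : s ∈ T := by by_contra h; exact hs (r0 s h)
    have p1 := h1 i s
    have p2 := h2 s (⟨T, hT⟩, i) hsT
    rw [← hx] at p2
    have d1 := dist_nonneg (x := a i) (y := b s)
    have d2 := dist_nonneg (x := b s) (y := x)
    cases hsi : s i
    · simp only [hsi, sg] at p1 p2 ⊢
      have q1 : δ < dist (a i) (b s) := by simpa using p1
      have q2 : dist (b s) x ≤ δ := by simpa using p2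
      simp
      nlinarith
    · simp only [hsi, sg] at p1 p2 ⊢
      have q1 : dist (a i) (b s) ≤ δ := by simpa using p1
      have q2 : δ < dist (b s) x := by simpa using p2
      simp
      nlinarith
  have hlt : ∑ s, t s * sg (s i) * (dist (b s) x ^ 2 - δ ^ 2) <
      ∑ s, t s * sg (s i) * (dist (a i) (b s) ^ 2 - δ ^ 2) := by
    obtain ⟨s0, hs0⟩ : ∃ s, t s ≠ 0 := by
      by_contra h
      push Not at h
      simp [h] at r2
    refine sum_lt_sum (fun s _ => ?_) ⟨s0, mem_univ _, ?_⟩
    · by_cases h : t s = 0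
      · simp [h]
      · rw [mul_assoc, mul_assoc]
        exact mul_le_mul_of_nonneg_left (term s h).le (r1 s)
    · rw [mul_assoc, mul_assoc]
      exact mul_lt_mul_of_pos_left (term s0 hs0) (lt_of_le_of_ne (r1 s0) hs0.symm)
  have := mul_nonneg r4 (sq_nonneg ‖a i - x‖)
  linarith

abbrev V (d : ℕ) : Type :=
  Fin d ⊕ (Fin d → Bool) ⊕ ({T : Finset (Fin d → Bool) // T.card ≤ d} × Fin d)

def rel {d : ℕ} : V d → V d → Prop
  | Sum.inl _, Sum.inr (Sum.inl _) => True
  | Sum.inr (Sum.inl _), Sum.inl _ => True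
  | Sum.inr (Sum.inl s), Sum.inr (Sum.inr z) => s ∈ z.1.1
  | Sum.inr (Sum.inr z), Sum.inr (Sum.inl s) => s ∈ z.1.1
  | _, _ => False

def G (d : ℕ) : SimpleGraph (V d) where
  Adj := rel
  symm := ⟨by rintro (a | a | a) (b | b | b) h <;> simp_all [rel]⟩
  loopless := ⟨by rintro (a | a | a) h <;> simp_all [rel]⟩

def short {d : ℕ} : V d → V d → Prop
  | Sum.inl i, Sum.inr (Sum.inl s) => s i = true
  | Sum.inr (Sum.inl s), Sum.inl i => s i = true
  | Sum.inr (Sum.inl s), Sum.inr (Sum.inr z) => s ∈ z.1.1 ∧ s z.2 = false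
  | Sum.inr (Sum.inr z), Sum.inr (Sum.inl s) => s ∈ z.1.1 ∧ s z.2 = false
  | _, _ => False

theorem short_symm {d : ℕ} : Symmetric (short (d := d)) := by
  rintro (a | a | a) (b | b | b) h <;> simp_all [short]

def side {d : ℕ} : V d → Fin 2
  | Sum.inr (Sum.inl _) => 1
  | _ => 0

theorem result : ∀ d : ℕ, 3 ≤ d → ∃ (W : Type) (_ : Fintype W) (H : SimpleGraph W),
    H.IsBipartite ∧ Degenerate d H ∧ ¬ Pandichotomous (d - 1) H := by
  intro d hd
  obtain ⟨k, rfl⟩ : ∃ k, d = k + 1 := ⟨d - 1, by omega⟩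
  classical
  refine ⟨V (k + 1), inferInstance, G (k + 1), ⟨SimpleGraph.Coloring.mk side ?_⟩, ?_, ?_⟩
  · rintro (a | a | a) (b | b | b) h <;> simp_all [G, rel, side]
  · intro H hH
    by_cases c3 : ∃ z, Sum.inr (Sum.inr z) ∈ H.verts
    · obtain ⟨z, hz⟩ := c3
      refine ⟨_, hz, ?_⟩
      have : H.neighborSet (Sum.inr (Sum.inr z)) ⊆
          (fun s => (Sum.inr (Sum.inl s) : V (k + 1))) '' (z.1.1 : Set _) := by
        rintro (b | b | b) hb <;> have := H.adj_sub hb <;> simp_all [G, rel]
      refine (Set.ncard_le_ncard this (Set.toFinite _)).trans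
        ((Set.ncard_image_le (Set.toFinite _)).trans ?_)
      simpa using z.1.2
    by_cases c2 : ∃ s, Sum.inr (Sum.inl s) ∈ H.verts
    · obtain ⟨s, hs⟩ := c2
      refine ⟨_, hs, ?_⟩
      have : H.neighborSet (Sum.inr (Sum.inl s)) ⊆
          (fun i => (Sum.inl i : V (k + 1))) '' Set.univ := by
        rintro (b | b | b) hb
        · simp
        · have := H.adj_sub hb; simp_all [G, rel]
        · exact absurd ⟨b, H.edge_vert hb.symm⟩ c3
      refine (Set.ncard_le_ncard this (Set.toFinite _)).trans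
        ((Set.ncard_image_le (Set.toFinite _)).trans ?_)
      simp [Set.ncard_univ]
    · obtain ⟨v, hv⟩ := hH
      refine ⟨v, hv, ?_⟩
      have : H.neighborSet v = ∅ := by
        rw [Set.eq_empty_iff_forall_notMem]
        intro w hw
        have h1 := H.adj_sub hw
        have h2 := H.edge_vert hw.symm
        rcases v with a | a | a <;> rcases w with b | b | b <;> simp_all [G, rel]
      simp [this]
  · intro h
    obtain ⟨p, δ, -, hδ, hp⟩ := h (Sym2.fromRel ⟨short_symm⟩) (by
      intro e he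
      induction e using Sym2.ind with
      | _ u v =>
        rw [Sym2.fromRel_prop] at he
        rw [SimpleGraph.mem_edgeSet]
        rcases u with a | a | a <;> rcases v with b | b | b <;> simp_all [G, rel, short])
    refine geom (fun i => p (Sum.inl i)) (fun s => p (Sum.inr (Sum.inl s)))
      (fun z => p (Sum.inr (Sum.inr z))) δ hδ (fun i s => ?_) (fun s z hz => ?_)
    · rw [hp _ _ (by simp [G, rel]), Sym2.fromRel_prop]
      simp [short]
    · rw [hp _ _ (by simpa [G, rel] using hz), Sym2.fromRel_prop]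
      simp [short, hz]

end Pool.Agent.Results.MP_8dd54d_co.Exists
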